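import Mathlib

/-!
# Elements of finite order in finitely generated central-by-finite groups
-/

set_option autoImplicit false

namespace Q27.FC

open Subgroup
open scoped IsMulCommutative

section

variable {N : Type} [Group N] [Group.FG N] [(center N).FiniteIndex]

theorem finite_tors_center : {z : center N | IsOfFinOrder z}.Finite := by
  have h1 : Group.FG (center N) := inferInstance
  have h2 : Module.Finite ℤ (Additive (center N)) :=
    Module.Finite.iff_addGroup_fg.2 (GroupFG.iff_add_fg.1 h1)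
  have h3 : Finite (Submodule.torsion ℤ (Additive (center N))) :=
    Module.finite_of_fg_torsion _ (Submodule.torsion_isTorsion)
  refine Set.Finite.subset ((Set.toFinite (Submodule.torsion ℤ (Additive (center N)) :
    Set (Additive (center N)))).preimage (f := Additive.ofMul) Additive.ofMul.injective.injOn) ?_
  intro z hz
  obtain ⟨n, hn, h4⟩ := isOfFinOrder_iff_pow_eq_one.1 hz
  show Additive.ofMul z ∈ Submodule.torsion ℤ (Additive (center N))
  rw [Submodule.mem_torsion_iff]
  refine ⟨⟨(n : ℤ), mem_nonZeroDivisors_of_ne_zero (by exact_mod_cast hn.ne')⟩, ?_⟩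
  show (n : ℤ) • Additive.ofMul z = 0
  rw [natCast_zsmul, ← ofMul_pow, h4]
  rfl

theorem finite_tors : {x : N | IsOfFinOrder x}.Finite := by
  have h1 : Finite (N ⧸ center N) := inferInstance
  let S : Set N := {x : N | IsOfFinOrder x}
  have h2 : S ⊆ ⋃ q : N ⧸ center N, {x | x ∈ S ∧ (x : N ⧸ center N) = q} := by
    intro x hx
    exact Set.mem_iUnion.2 ⟨_, hx, rfl⟩
  refine (Set.finite_iUnion (fun q => ?_)).subset h2
  by_cases hq : ∃ y, y ∈ S ∧ (y : N ⧸ center N) = q
  · obtain ⟨y, hy, hyq⟩ := hq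
    refine ((finite_tors_center (N := N)).image (fun z : center N => y * (z : N))).subset ?_
    rintro x ⟨hx, hxq⟩
    have h3 : y⁻¹ * x ∈ center N := QuotientGroup.eq.1 (hyq.trans hxq.symm)
    have h4 : Commute y⁻¹ x := by
      have h5 := mem_center_iff.1 h3 y
      show y⁻¹ * x = x * y⁻¹
      have h6 : x = y⁻¹ * x * y := by
        rw [← h5]
        group
      calc y⁻¹ * x = (y⁻¹ * x * y) * y⁻¹ := by group
        _ = x * y⁻¹ := by rw [← h6]
    refine ⟨⟨y⁻¹ * x, h3⟩, ?_, by simp⟩
    show IsOfFinOrder (⟨y⁻¹ * x, h3⟩ : center N)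
    have h5 : IsOfFinOrder (y⁻¹ * x) := h4.isOfFinOrder_mul hy.inv hx
    obtain ⟨n, hn, h6⟩ := isOfFinOrder_iff_pow_eq_one.1 h5
    exact isOfFinOrder_iff_pow_eq_one.2 ⟨n, hn, Subtype.ext h6⟩
  · refine Set.finite_empty.subset ?_
    rintro x ⟨hx, hxq⟩
    exact hq ⟨x, hx, hxq⟩

omit [Group.FG N] in
theorem comm_tors (a b : N) : IsOfFinOrder (a * b * a⁻¹ * b⁻¹) := by
  have h1 : MonoidHom.transferCenterPow N (a * b * a⁻¹ * b⁻¹) = 1 := by
    rw [map_mul, map_mul, map_mul, map_inv, map_inv, mul_right_comm]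
    simp
  have h2 := congrArg Subtype.val h1
  rw [MonoidHom.transferCenterPow_apply] at h2
  exact isOfFinOrder_iff_pow_eq_one.2 ⟨_, Nat.pos_of_ne_zero FiniteIndex.index_ne_zero, h2⟩

variable (N) in
/-- the subgroup of the elements of finite order -/
noncomputable def tors : Subgroup N where
  carrier := {x | IsOfFinOrder x}
  one_mem' := IsOfFinOrder.one
  mul_mem' := by
    intro a b ha hb
    obtain ⟨m, hm, h1⟩ := isOfFinOrder_iff_pow_eq_one.1 ha
    obtain ⟨n, hn, h2⟩ := isOfFinOrder_iff_pow_eq_one.1 hb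
    have h3 : (MonoidHom.transferCenterPow N (a * b)) ^ (m * n) = 1 := by
      rw [map_mul, mul_pow, ← map_pow, ← map_pow, pow_mul, h1, mul_comm m n, pow_mul, h2]
      simp
    have h4 := congrArg Subtype.val h3
    rw [Subgroup.coe_pow, MonoidHom.transferCenterPow_apply, ← pow_mul] at h4
    exact isOfFinOrder_iff_pow_eq_one.2 ⟨_, Nat.mul_pos
      (Nat.pos_of_ne_zero FiniteIndex.index_ne_zero) (Nat.mul_pos hm hn), h4⟩
  inv_mem' := fun h => h.inv

end

end Q27.FC
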