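import Pool.Agent.Q27.FC.Main
import Pool.Agent.Q27.FC.Tors
import Pool.Agent.Y430.SS.Lf

/-!
# Commuting edge stabilizers, and edge stabilizers in FC-centres
-/

set_option autoImplicit false

namespace Q27.FC

open SimpleGraph
open Pool.Agent.Helper270.Tree
open Pool.Agent.Y462.SS (Closed)
open Q182.Cyl (ClosedA Est)
open Q182.Lk (QuotIn)

variable {C : ∀ (G : Type) [Group G], Prop}

variable {G V : Type} [Group G] [MulAction G V] {T : SimpleGraph V}

theorem quotIn_bot {v : V} (h : C (MulAction.stabilizer G v)) :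
    QuotIn C (fun _ : V => (⊥ : Subgroup G)) v :=
  ⟨_, inferInstance, MonoidHom.id _, h, fun s =>
    ⟨fun h => Subgroup.mem_bot.2 (congrArg Subtype.val h), fun h => Subtype.ext
      (Subgroup.mem_bot.1 h)⟩⟩

/-- the elements in a group generated by elements fixing `v` and `w` fix them -/
theorem fix_closure {X : Set (V × G)} {v : V}
    (hX : ∀ p ∈ X, T.Adj v p.1 ∧ p.2 • v = v ∧ p.2 • p.1 = p.1) {w : V} {e : G}
    (he : e ∈ Subgroup.closure {x | (w, x) ∈ X}) : e • v = v ∧ e • w = w := by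
  have h1 : Subgroup.closure {x | (w, x) ∈ X} ≤
      MulAction.stabilizer G v ⊓ MulAction.stabilizer G w :=
    (Subgroup.closure_le _).2 (fun x hx => ⟨(hX _ hx).2.1, (hX _ hx).2.2⟩)
  exact h1 he

/-- **commuting edge stabilizers** -/
theorem main_comm (hC : ClosedA C) (hmet : ∀ (G : Type) [Group G], derivedSeries G 2 = ⊥ → C G)
    (hT : TreeAct G T) (hst : ∀ v : V, C (MulAction.stabilizer G v))
    (hcomm : ∀ v w w' : V, T.Adj v w → T.Adj v w' → ∀ s s' : G, s • v = v → s • w = w →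
      s' • v = v → s' • w' = w' → s * s' = s' * s)
    (hQ : ∀ (v : V) (X : Set G), X.Finite → (∀ x ∈ X, x • v = v ∧ ∃ w, T.Adj v w ∧ x • w = w) →
      ∃ (Q : Type) (_ : Group Q) (φ : MulAction.stabilizer G v →* Q), C Q ∧
        ∀ g, φ g = 1 ↔ ∀ h : G, h • v = v → ∀ x ∈ X, (g : G) * (h * x * h⁻¹) = (h * x * h⁻¹) * g) :
    C G := by
  have htriv : C PUnit := by
    obtain ⟨v⟩ := hT.isTree.connected.nonempty
    exact hC.base.base.of_injective PUnit _ (1 : PUnit →* MulAction.stabilizer G v)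
      (fun _ _ _ => rfl) (hst v)
  refine main (Θ := {1}) (D := PUnit) ?_ hC hmet hT 1 htriv hst ?_
  · rintro g x rfl
    show g * 1 * g⁻¹ = 1
    group
  intro v X hX hXa
  obtain ⟨Q, _, φ, hQ, hφ⟩ := hQ v (Prod.snd '' X) (hX.image _) (by
    rintro _ ⟨p, hp, rfl⟩
    exact ⟨(hXa p hp).2.1, p.1, (hXa p hp).1, (hXa p hp).2.2⟩)
  let K : Subgroup G :=
    { carrier := {g | g • v = v ∧ ∀ h : G, h • v = v → ∀ p ∈ X,
        g * (h * p.2 * h⁻¹) = (h * p.2 * h⁻¹) * g}
      one_mem' := ⟨one_smul _ _, fun h _ p _ => by rw [one_mul, mul_one]⟩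
      mul_mem' := by
        rintro a b ⟨ha1, ha2⟩ ⟨hb1, hb2⟩
        refine ⟨by rw [mul_smul, hb1, ha1], fun h hh p hp => ?_⟩
        rw [mul_assoc, hb2 h hh p hp, ← mul_assoc, ha2 h hh p hp, mul_assoc]
      inv_mem' := by
        rintro a ⟨ha1, ha2⟩
        refine ⟨inv_smul_eq_iff.2 ha1.symm, fun h hh p hp => ?_⟩
        rw [inv_mul_eq_iff_eq_mul, ← mul_assoc, ha2 h hh p hp, mul_inv_cancel_right] }
  have hK : ∀ g, g ∈ K ↔ g • v = v ∧ ∀ h : G, h • v = v → ∀ p ∈ X,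
        g * (h * p.2 * h⁻¹) = (h * p.2 * h⁻¹) * g := fun g => Iff.rfl
  refine ⟨K, ⊥, ⟨bot_le, fun k hk => hk.1, fun _ _ => rfl, ?_, ?_, ?_, quotIn_bot (hst v), ?_, ?_,
    ?_, ?_⟩⟩
  · rintro g hg k ⟨hk1, hk2⟩
    refine ⟨by rw [mul_smul, mul_smul, inv_smul_eq_iff.2 hg.symm, hk1, hg], fun h hh p hp => ?_⟩
    have h1 := hk2 (g⁻¹ * h) (by rw [mul_smul, hh, inv_smul_eq_iff.2 hg.symm]) p hp
    rw [mul_inv_rev, inv_inv] at h1
    have h2 := congrArg (fun z => g * z * g⁻¹) h1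
    calc g * k * g⁻¹ * (h * p.2 * h⁻¹) = g * (k * (g⁻¹ * h * p.2 * (h⁻¹ * g))) * g⁻¹ := by group
      _ = g * (g⁻¹ * h * p.2 * (h⁻¹ * g) * k) * g⁻¹ := h2
      _ = _ := by group
  · intro g _ k hk
    rw [Subgroup.mem_bot.1 hk]
    simp
  · refine ⟨Q, inferInstance, φ, hQ, fun s => (hφ s).trans ?_⟩
    constructor
    · intro h1
      refine ⟨s.2, fun h hh p hp => h1 h hh p.2 ⟨p, hp, rfl⟩⟩
    · rintro h1 h hh _ ⟨p, hp, rfl⟩
      exact h1.2 h hh p hp
  · intro w e he _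
    obtain ⟨h1, h2⟩ := fix_closure hXa he
    refine ⟨h1, fun h hh p hp => ?_⟩
    by_cases hw : T.Adj v w
    · obtain ⟨h3, h4, h5⟩ := hXa p hp
      refine hcomm v w (h • p.1) hw ?_ _ _ h1 h2 ?_ ?_
      · have h6 := hT.adj h v p.1 h3
        rwa [hh] at h6
      · rw [mul_smul, mul_smul, inv_smul_eq_iff.2 hh.symm, h4, hh]
      · rw [mul_smul, mul_smul, inv_smul_smul, h5]
    · have h3 : ({x | (w, x) ∈ X} : Set G) = ∅ := by
        rw [Set.eq_empty_iff_forall_notMem]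
        intro x hx
        exact hw (hXa _ hx).1
      rw [h3, Subgroup.closure_empty, Subgroup.mem_bot] at he
      rw [he, one_mul, mul_one]
  · intro w e he _ k hk
    have h1 : e ∈ Subgroup.centralizer {k} := by
      have h2 : Subgroup.closure {x | (w, x) ∈ X} ≤ Subgroup.centralizer {k} := by
        refine (Subgroup.closure_le _).2 ?_
        intro x hx
        rw [SetLike.mem_coe, Subgroup.mem_centralizer_singleton_iff]
        have h3 := hk.2 1 (one_smul _ _) (w, x) hx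
        rw [one_mul, inv_one, mul_one] at h3
        exact h3.symm
      exact h2 he
    rw [Subgroup.mem_centralizer_singleton_iff] at h1
    rw [Subgroup.mem_bot, h1]
    group
  · intro w e _ _
    exact Subgroup.mem_bot
  · intro w
    refine (Set.finite_singleton (1 : G)).subset ?_
    rintro e ⟨_, _, h⟩
    exact Subgroup.mem_bot.1 h

/-- **edge stabilizers in the FC-centres of the vertex stabilizers** -/
theorem main_fc (hC : ClosedA C) (hmet : ∀ (G : Type) [Group G], derivedSeries G 2 = ⊥ → C G)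
    (hT : TreeAct G T)
    (hfc : ∀ v w : V, T.Adj v w → ∀ x : G, x • v = v → x • w = w →
      {y | ∃ g : G, g • v = v ∧ y = g * x * g⁻¹}.Finite)
    (hst : ∀ (v : V) (L : Subgroup G), (L : Set G).Finite →
      L ≤ Subgroup.closure {x | x • v = v ∧ ∃ w, T.Adj v w ∧ x • w = w} →
      (∀ g : G, g • v = v → ∀ k ∈ L, g * k * g⁻¹ ∈ L) →
      ∃ (Q : Type) (_ : Group Q) (φ : MulAction.stabilizer G v →* Q), C Q ∧
        ∀ s, φ s = 1 ↔ (s : G) ∈ L) : C G := by
  have hst' : ∀ v : V, C (MulAction.stabilizer G v) := by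
    intro v
    obtain ⟨Q, _, φ, hQ, hφ⟩ := hst v ⊥ (Set.finite_singleton 1) bot_le (by
      intro g _ k hk
      rw [Subgroup.mem_bot.1 hk]
      simp)
    refine hC.base.base.of_injective _ _ φ ?_ hQ
    rw [injective_iff_map_eq_one]
    intro s hs
    exact Subtype.ext (Subgroup.mem_bot.1 ((hφ s).1 hs))
  have htriv : C PUnit := by
    obtain ⟨v⟩ := hT.isTree.connected.nonempty
    exact hC.base.base.of_injective PUnit _ (1 : PUnit →* MulAction.stabilizer G v)
      (fun _ _ _ => rfl) (hst' v)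
  refine main (Θ := {x | IsOfFinOrder x}) (D := PUnit) ?_ hC hmet hT 1 htriv hst' ?_
  · intro g x hx
    obtain ⟨n, hn, h1⟩ := isOfFinOrder_iff_pow_eq_one.1 hx
    refine isOfFinOrder_iff_pow_eq_one.2 ⟨n, hn, ?_⟩
    rw [conj_pow, h1]
    group
  intro v X hX hXa
  let S : Subgroup G := MulAction.stabilizer G v
  let Y : Set G := ⋃ p ∈ X, {y | ∃ g : G, g • v = v ∧ y = g * p.2 * g⁻¹}
  have hYf : Y.Finite := hX.biUnion (fun p hp => hfc v p.1 (hXa p hp).1 p.2 (hXa p hp).2.1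
    (hXa p hp).2.2)
  have hYm : ∀ y, y ∈ Y ↔ ∃ p ∈ X, ∃ g : G, g • v = v ∧ y = g * p.2 * g⁻¹ := by
    intro y
    simp only [Y, Set.mem_iUnion, Set.mem_setOf_eq, exists_prop]
  have hYS : ∀ g ∈ S, ∀ y ∈ Y, g * y * g⁻¹ ∈ Y := by
    intro g hg y hy
    obtain ⟨p, hp, h, hh, rfl⟩ := (hYm y).1 hy
    have hg' : g • v = v := hg
    exact (hYm _).2 ⟨p, hp, g * h, by rw [mul_smul, hh, hg'], by group⟩
  have hYf' : Finite Y := hYf
  let N : Subgroup G := Subgroup.closure Y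
  have hYst : ∀ y ∈ Y, y • v = v ∧ ∃ w, T.Adj v w ∧ y • w = w := by
    intro y hy
    obtain ⟨p, hp, h, hh, rfl⟩ := (hYm y).1 hy
    obtain ⟨h3, h4, h5⟩ := hXa p hp
    refine ⟨by rw [mul_smul, mul_smul, inv_smul_eq_iff.2 hh.symm, h4, hh], h • p.1, ?_,
      by rw [mul_smul, mul_smul, inv_smul_smul, h5]⟩
    have h6 := hT.adj h v p.1 h3
    rwa [hh] at h6
  have hNS : N ≤ S := (Subgroup.closure_le _).2 (fun y hy => (hYst y hy).1)
  have hNconj : ∀ g ∈ S, ∀ n ∈ N, g * n * g⁻¹ ∈ N := by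
    intro g hg n hn
    have h1 : N ≤ N.comap (MulAut.conj g).toMonoidHom :=
      (Subgroup.closure_le _).2 (fun y hy => Subgroup.subset_closure (hYS g hg y hy))
    exact h1 hn
  -- the action on the generators
  let c : S →* Equiv.Perm Y :=
    { toFun := fun g =>
        { toFun := fun y => ⟨g * y * (g : G)⁻¹, hYS g g.2 y y.2⟩
          invFun := fun y => ⟨(g : G)⁻¹ * y * g, by
            have h1 := hYS (g : G)⁻¹ (inv_mem g.2) y y.2
            rwa [inv_inv] at h1⟩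
          left_inv := fun y => Subtype.ext (by
            show (g : G)⁻¹ * (g * y * (g : G)⁻¹) * g = y
            group)
          right_inv := fun y => Subtype.ext (by
            show (g : G) * ((g : G)⁻¹ * y * g) * (g : G)⁻¹ = y
            group) }
      map_one' := by
        ext y
        show (1 : G) * y * (1 : G)⁻¹ = y
        group
      map_mul' := by
        intro a b
        ext y
        show (a * b : G) * y * (a * b : G)⁻¹ = a * (b * y * (b : G)⁻¹) * (a : G)⁻¹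
        group }
  have hcker : ∀ g : S, g ∈ c.ker ↔ ∀ y ∈ Y, (g : G) * y * (g : G)⁻¹ = y := by
    intro g
    constructor
    · intro h y hy
      exact congrArg (fun q : Equiv.Perm Y => ((q ⟨y, hy⟩ : Y) : G)) h
    · intro h
      apply Equiv.ext
      intro y
      exact Subtype.ext (h y y.2)
  have hckerN : ∀ g : S, g ∈ c.ker → ∀ n ∈ N, (g : G) * n = n * g := by
    intro g hg n hn
    have h1 : N ≤ Subgroup.centralizer {(g : G)} := by
      refine (Subgroup.closure_le _).2 ?_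
      intro y hy
      rw [SetLike.mem_coe, Subgroup.mem_centralizer_singleton_iff]
      have h2 := (hcker g).1 hg y hy
      exact (mul_inv_eq_iff_eq_mul.1 h2).symm
    have h2 := h1 hn
    rw [Subgroup.mem_centralizer_singleton_iff] at h2
    exact h2.symm
  have hfg : Group.FG N := by
    rw [Group.fg_iff_subgroup_fg]
    exact ⟨hYf.toFinset, by rw [Set.Finite.coe_toFinset]⟩
  have hcen : (Subgroup.center N).FiniteIndex := by
    have h1 : (c.comp (Subgroup.inclusion hNS)).ker ≤ Subgroup.center N := by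
      intro n hn
      rw [Subgroup.mem_center_iff]
      intro m
      have h2 := hckerN (Subgroup.inclusion hNS n) hn m m.2
      exact Subtype.ext h2.symm
    exact Subgroup.finiteIndex_of_le h1
  let L : Subgroup G := (tors N).map N.subtype
  have hL : ∀ x, x ∈ L ↔ x ∈ N ∧ IsOfFinOrder x := by
    intro x
    constructor
    · rintro ⟨n, hn, rfl⟩
      obtain ⟨k, hk, h1⟩ := isOfFinOrder_iff_pow_eq_one.1 (show IsOfFinOrder n from hn)
      exact ⟨n.2, isOfFinOrder_iff_pow_eq_one.2 ⟨k, hk, congrArg Subtype.val h1⟩⟩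
    · rintro ⟨h1, h2⟩
      obtain ⟨k, hk, h3⟩ := isOfFinOrder_iff_pow_eq_one.1 h2
      exact ⟨⟨x, h1⟩, isOfFinOrder_iff_pow_eq_one.2 ⟨k, hk, Subtype.ext h3⟩, rfl⟩
  have hLfin : (L : Set G).Finite := by
    have h1 : (L : Set G) = N.subtype '' {x : N | IsOfFinOrder x} := rfl
    rw [h1]
    exact finite_tors.image _
  have hLconj : ∀ g ∈ S, ∀ k ∈ L, g * k * g⁻¹ ∈ L := by
    intro g hg k hk
    rw [hL] at hk ⊢
    refine ⟨hNconj g hg k hk.1, ?_⟩
    obtain ⟨n, hn, h1⟩ := isOfFinOrder_iff_pow_eq_one.1 hk.2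
    refine isOfFinOrder_iff_pow_eq_one.2 ⟨n, hn, ?_⟩
    rw [conj_pow, h1]
    group
  have hLN : L ≤ N := fun x hx => ((hL x).1 hx).1
  have hNcomm : ∀ a ∈ N, ∀ b ∈ N, a * b * a⁻¹ * b⁻¹ ∈ L := by
    intro a ha b hb
    rw [hL]
    refine ⟨mul_mem (mul_mem (mul_mem ha hb) (inv_mem ha)) (inv_mem hb), ?_⟩
    obtain ⟨k, hk, h1⟩ := isOfFinOrder_iff_pow_eq_one.1
      (comm_tors (⟨a, ha⟩ : N) (⟨b, hb⟩ : N))
    exact isOfFinOrder_iff_pow_eq_one.2 ⟨k, hk, congrArg Subtype.val h1⟩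
  let K : Subgroup G :=
    { carrier := {g | g ∈ S ∧ ∀ n ∈ N, g * n * g⁻¹ * n⁻¹ ∈ L}
      one_mem' := ⟨one_mem _, fun n _ => by
        rw [one_mul, inv_one, mul_one, mul_inv_cancel]
        exact one_mem _⟩
      mul_mem' := by
        rintro a b ⟨ha1, ha2⟩ ⟨hb1, hb2⟩
        refine ⟨mul_mem ha1 hb1, fun n hn => ?_⟩
        have h1 := ha2 (b * n * b⁻¹) (hNconj b hb1 n hn)
        have h2 := hb2 n hn
        have h3 := mul_mem h1 h2
        rwa [show a * (b * n * b⁻¹) * a⁻¹ * (b * n * b⁻¹)⁻¹ * (b * n * b⁻¹ * n⁻¹) =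
          a * b * n * (a * b)⁻¹ * n⁻¹ by group] at h3
      inv_mem' := by
        rintro a ⟨ha1, ha2⟩
        refine ⟨inv_mem ha1, fun n hn => ?_⟩
        have h0 := hNconj a⁻¹ (inv_mem ha1) n hn
        rw [inv_inv] at h0
        have h1 := inv_mem (ha2 _ h0)
        rw [inv_inv]
        rwa [show (a * (a⁻¹ * n * a) * a⁻¹ * (a⁻¹ * n * a)⁻¹)⁻¹ = a⁻¹ * n * a * n⁻¹ by group]
          at h1 }
  have hK : ∀ g, g ∈ K ↔ g ∈ S ∧ ∀ n ∈ N, g * n * g⁻¹ * n⁻¹ ∈ L := fun g => Iff.rfl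
  have hKconj : ∀ g ∈ S, ∀ k ∈ K, g * k * g⁻¹ ∈ K := by
    rintro g hg k ⟨hk1, hk2⟩
    refine ⟨mul_mem (mul_mem hg hk1) (inv_mem hg), fun n hn => ?_⟩
    have h0 := hNconj g⁻¹ (inv_mem hg) n hn
    rw [inv_inv] at h0
    have h1 := hLconj g hg _ (hk2 _ h0)
    rwa [show g * (k * (g⁻¹ * n * g) * k⁻¹ * (g⁻¹ * n * g)⁻¹) * g⁻¹ =
      g * k * g⁻¹ * n * (g * k * g⁻¹)⁻¹ * n⁻¹ by group] at h1
  have hXN : ∀ w, ∀ e ∈ Subgroup.closure {x | (w, x) ∈ X}, e ∈ N := by
    intro w e he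
    have h1 : Subgroup.closure {x | (w, x) ∈ X} ≤ N := by
      refine (Subgroup.closure_le _).2 ?_
      intro x hx
      exact Subgroup.subset_closure ((hYm x).2 ⟨(w, x), hx, 1, one_smul _ _, by group⟩)
    exact h1 he
  have hNK : N ≤ K := fun n hn => ⟨hNS hn, fun m hm => hNcomm n hn m hm⟩
  refine ⟨K, L, ⟨fun x hx => hNK (hLN hx), fun k hk => hk.1, fun _ _ => rfl,
    fun g hg => hKconj g hg, fun g hg => hLconj g hg, ?_, ?_, ?_, ?_, ?_, ?_⟩⟩
  · -- the quotient by `K` is finite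
    have hn : (K.subgroupOf S).Normal := by
      constructor
      intro k hk g
      exact hKconj g g.2 k hk
    have hfi : (K.subgroupOf S).FiniteIndex := by
      have h1 : c.ker ≤ K.subgroupOf S := by
        intro g hg
        rw [Subgroup.mem_subgroupOf]
        refine ⟨g.2, fun n hn => ?_⟩
        rw [hckerN g hg n hn]
        rw [mul_inv_cancel_right, mul_inv_cancel]
        exact one_mem _
      exact Subgroup.finiteIndex_of_le h1
    have hfin : Finite (S ⧸ K.subgroupOf S) := inferInstance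
    exact ⟨S ⧸ K.subgroupOf S, inferInstance, QuotientGroup.mk' _,
      Pool.Agent.Y430.SS.of_finite hC.base.base _ hfin,
      fun s => (QuotientGroup.eq_one_iff s)⟩
  · obtain ⟨Q, _, φ, hQ, hφ⟩ := hst v L hLfin (hLN.trans ((Subgroup.closure_le _).2
      (fun y hy => Subgroup.subset_closure (hYst y hy)))) hLconj
    exact ⟨Q, inferInstance, φ, hQ, hφ⟩
  · intro w e he _
    exact hNK (hXN w e he)
  · intro w e he _ k hk
    have h1 := inv_mem (hk.2 e (hXN w e he))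
    rwa [show (k * e * k⁻¹ * e⁻¹)⁻¹ = e * k * e⁻¹ * k⁻¹ by group] at h1
  · intro w e he _
    rw [hL]
    exact ⟨fun h => h.2, fun h => ⟨hXN w e he, h⟩⟩
  · intro w
    exact hLfin.subset (fun e he => he.2.2)

end Q27.FC
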